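import Pool.Agent.P8H72.RE.Stm

/-!
# Project RE, package CYC: a finite group with matrix units in its group algebra
-/

set_option autoImplicit false

open Matrix

namespace Pool.Agent.P8H97.RE

open Pool.Agent.P8H72.RE

noncomputable section

section chars

variable {I : Type} [Fintype I] [DecidableEq I]

/-- the sign of `x` at the place `i` -/
def sg (x : I → ℤˣ) (i : I) : ℂ := ((x i : ℤ) : ℂ)

lemma sg_mul (x y : I → ℤˣ) (i : I) : sg (x * y) i = sg x i * sg y i := by
  simp [sg]

lemma sg_sq (x : I → ℤˣ) (i : I) : sg x i * sg x i = 1 := by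
  unfold sg
  rcases Int.units_eq_one_or (x i) with h | h <;> simp [h]

lemma sg_inv (x : I → ℤˣ) (i : I) : sg x⁻¹ i = sg x i := by
  unfold sg
  rcases Int.units_eq_one_or (x i) with h | h <;> simp [h]

lemma sg_conj (x : I → ℤˣ) (i : I) : star (sg x i) = sg x i := by
  simp [sg]

/-- orthogonality of the characters -/
lemma sg_orth (i j : I) : ∑ x : I → ℤˣ, sg x i * sg x j =
    if i = j then (Fintype.card (I → ℤˣ) : ℂ) else 0 := by
  by_cases hij : i = j
  · subst hij
    simp [sg_sq]
  · rw [if_neg hij]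
    set s : I → ℤˣ := Pi.mulSingle i (-1) with hs
    have h1 : ∑ x : I → ℤˣ, sg x i * sg x j = ∑ x : I → ℤˣ, sg (s * x) i * sg (s * x) j :=
      (Fintype.sum_equiv (Equiv.mulLeft s) _ _ fun x => rfl).symm
    have h2 : ∀ x : I → ℤˣ, sg (s * x) i * sg (s * x) j = -(sg x i * sg x j) := by
      intro x
      have e1 : sg s i = -1 := by simp [sg, hs]
      have e2 : sg s j = 1 := by
        simp [sg, hs, Pi.mulSingle_eq_of_ne (Ne.symm hij)]
      rw [sg_mul, sg_mul, e1, e2]
      ring
    rw [Finset.sum_congr rfl fun x _ => h2 x, Finset.sum_neg_distrib] at h1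
    have h3 : (2 : ℂ) * ∑ x : I → ℤˣ, sg x i * sg x j = 0 := by linear_combination h1
    simpa using h3

end chars

section algebra

variable {I : Type} [Fintype I] [DecidableEq I] {R : Type} [Ring R] [Algebra ℂ R]

/-- the projection of the character `x ↦ x i` -/
def Q (ψ : (I → ℤˣ) →* R) (i : I) : R :=
  ∑ x : I → ℤˣ, (sg x i / Fintype.card (I → ℤˣ) : ℂ) • ψ x

lemma card_ne : (Fintype.card (I → ℤˣ) : ℂ) ≠ 0 := by
  exact_mod_cast Fintype.card_ne_zero

lemma Q_mul (ψ : (I → ℤˣ) →* R) (i j : I) : Q ψ i * Q ψ j = if i = j then Q ψ i else 0 := by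
  unfold Q
  set q : ℂ := (Fintype.card (I → ℤˣ) : ℂ) with hq
  have hq0 : q ≠ 0 := card_ne
  rw [Finset.sum_mul]
  have h1 : ∀ x : I → ℤˣ, (sg x i / q) • ψ x * ∑ y : I → ℤˣ, (sg y j / q) • ψ y =
      ∑ z : I → ℤˣ, (sg x i * sg x j * sg z j / q / q) • ψ z := by
    intro x
    rw [Finset.mul_sum, ← Equiv.sum_comp (Equiv.mulLeft x)
      (fun z : I → ℤˣ => (sg x i * sg x j * sg z j / q / q) • ψ z)]
    refine Finset.sum_congr rfl fun y _ => ?_
    rw [Equiv.coe_mulLeft, map_mul, smul_mul_smul_comm, sg_mul]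
    congr 1
    have := sg_sq x j
    field_simp
    linear_combination (- sg x i * sg y j) * this
  rw [Finset.sum_congr rfl fun x _ => h1 x, Finset.sum_comm]
  have h2 : ∀ z : I → ℤˣ, ∑ x : I → ℤˣ, (sg x i * sg x j * sg z j / q / q) • ψ z =
      ((if i = j then q else 0) * sg z j / q / q) • ψ z := by
    intro z
    rw [← Finset.sum_smul, ← sg_orth i j, Finset.sum_mul, Finset.sum_div, Finset.sum_div]
  rw [Finset.sum_congr rfl fun z _ => h2 z]
  by_cases hij : i = j
  · subst hij
    simp only [if_true]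
    refine Finset.sum_congr rfl fun z _ => ?_
    congr 1
    field_simp
  · simp only [if_neg hij, zero_mul, zero_div, zero_smul, Finset.sum_const_zero]

end algebra

section group

variable {L : ℕ} (d : Fin L → ℕ)

/-- the places -/
abbrev Pl : Type := Σ l : Fin L, Fin (d l)

/-- the action of the block permutations -/
def phi : (∀ l, Equiv.Perm (Fin (d l))) →* MulAut (Pl d → ℤˣ) :=
  (mulAutArrow (G := Equiv.Perm (Pl d)) (A := Pl d) (M := ℤˣ)).comp
    (Equiv.Perm.sigmaCongrRightHom fun l : Fin L => Fin (d l))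

lemma phi_apply (σ : ∀ l, Equiv.Perm (Fin (d l))) (x : Pl d → ℤˣ) (l : Fin L) (i : Fin (d l)) :
    phi d σ x ⟨l, i⟩ = x ⟨l, (σ l)⁻¹ i⟩ := rfl

/-- the group -/
abbrev GG : Type := (Pl d → ℤˣ) ⋊[phi d] (∀ l, Equiv.Perm (Fin (d l)))

instance : Fintype (GG d) := Fintype.ofEquiv _ SemidirectProduct.equivProd.symm

/-- the matrices of the standard representation -/
def rm (g : GG d) (l : Fin L) : Matrix (Fin (d l)) (Fin (d l)) ℂ :=
  Matrix.of fun i j => if i = g.right l j then sg g.left ⟨l, i⟩ else 0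

lemma rm_apply (g : GG d) (l : Fin L) (i j : Fin (d l)) :
    rm d g l i j = if i = g.right l j then sg g.left ⟨l, i⟩ else 0 := rfl

lemma rm_mul (g h : GG d) : rm d (g * h) = rm d g * rm d h := by
  funext l
  ext i j
  rw [Pi.mul_apply, Matrix.mul_apply, Finset.sum_eq_single (h.right l j)]
  · rw [rm_apply, rm_apply, rm_apply, if_pos (rfl : h.right l j = h.right l j),
      SemidirectProduct.mul_right, SemidirectProduct.mul_left, sg_mul,
      Pi.mul_apply, Equiv.Perm.mul_apply]
    by_cases hi : i = g.right l (h.right l j)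
    · rw [if_pos hi, if_pos hi]
      congr 1
      unfold sg
      rw [phi_apply, hi]
      simp
    · rw [if_neg hi, if_neg hi, zero_mul]
  · intro k _ hk
    rw [rm_apply, rm_apply, if_neg hk, mul_zero]
  · intro h0; exact absurd (Finset.mem_univ _) h0

/-- the standard representation -/
def rho0 : GG d →* (∀ l, Matrix (Fin (d l)) (Fin (d l)) ℂ) where
  toFun g := rm d g
  map_one' := by
    funext l
    ext i j
    rw [rm_apply]
    simp [Matrix.one_apply, sg]
  map_mul' g h := rm_mul d g h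

lemma rho0_star (g : GG d) : star (rho0 d g) = rho0 d g⁻¹ := by
  funext l
  ext i j
  rw [Pi.star_apply, star_apply]
  change star (if j = g.right l i then sg g.left ⟨l, j⟩ else 0) =
    if i = (g⁻¹).right l j then sg (g⁻¹).left ⟨l, i⟩ else 0
  have h1 : (i = (g⁻¹).right l j) ↔ (j = g.right l i) := by
    rw [SemidirectProduct.inv_right, Pi.inv_apply, Equiv.Perm.eq_inv_iff_eq]
    exact eq_comm
  by_cases hj : j = g.right l i
  · rw [if_pos hj, if_pos (h1.mpr hj), sg_conj, SemidirectProduct.inv_left]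
    have h2 : sg (phi d g.right⁻¹ g.left⁻¹) ⟨l, i⟩ = sg g.left⁻¹ ⟨l, g.right l i⟩ := by
      unfold sg
      rw [phi_apply]
      simp
    rw [h2, sg_inv, hj]
  · rw [if_neg hj, if_neg fun h => hj (h1.mp h), star_zero]

/-- the standard representation, with values in the unitary group -/
def rho : GG d →* unitary (∀ l, Matrix (Fin (d l)) (Fin (d l)) ℂ) :=
  (rho0 d).codRestrict _ fun g => by
    rw [Unitary.mem_iff, rho0_star, ← map_mul, ← map_mul]
    simp

/-- the base point of a block -/
def base {l : Fin L} (a : Fin (d l)) : Fin (d l) := ⟨0, a.pos⟩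

/-- the permutation which maps `b` to `a` -/
def tp (l : Fin L) (a b : Fin (d l)) : ∀ l, Equiv.Perm (Fin (d l)) :=
  Pi.mulSingle l (Equiv.swap (base d a) a * Equiv.swap (base d b) b)

lemma base_eq {l : Fin L} (a b : Fin (d l)) : base d a = base d b := rfl

lemma tp_mul (l : Fin L) (a b c : Fin (d l)) : tp d l a b * tp d l b c = tp d l a c := by
  unfold tp
  rw [← Pi.mulSingle_mul, mul_assoc, ← mul_assoc (Equiv.swap (base d b) b), Equiv.swap_mul_self,
    one_mul]

lemma tp_self (l : Fin L) (a : Fin (d l)) : tp d l a a = 1 := by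
  unfold tp
  rw [Equiv.swap_mul_self, Pi.mulSingle_one]

lemma tp_inv (l : Fin L) (a b : Fin (d l)) : (tp d l a b)⁻¹ = tp d l b a := by
  rw [inv_eq_iff_mul_eq_one, tp_mul, tp_self]

lemma tp_apply (l : Fin L) (a b : Fin (d l)) : tp d l a b l b = a := by
  unfold tp
  rw [Pi.mulSingle_eq_same, Equiv.Perm.mul_apply, Equiv.swap_apply_right, base_eq d b a,
    Equiv.swap_apply_left]

/-- the coefficients -/
def cf (l : Fin L) (a b : Fin (d l)) (g : GG d) : ℂ :=
  ∑ x : Pl d → ℤˣ, if SemidirectProduct.inr (tp d l a b) * SemidirectProduct.inl x = g then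
    sg x ⟨l, b⟩ / Fintype.card (Pl d → ℤˣ) else 0

lemma sum_cf {R : Type} [Ring R] [Algebra ℂ R] (ψ : GG d →* R) (l : Fin L) (a b : Fin (d l)) :
    ∑ g, cf d l a b g • ψ g =
      ψ (SemidirectProduct.inr (tp d l a b)) * Q (ψ.comp SemidirectProduct.inl) ⟨l, b⟩ := by
  classical
  unfold cf Q
  simp only [Finset.sum_smul]
  rw [Finset.sum_comm, Finset.mul_sum]
  refine Finset.sum_congr rfl fun x _ => ?_
  rw [Finset.sum_eq_single (SemidirectProduct.inr (tp d l a b) * SemidirectProduct.inl x)]
  · rw [if_pos rfl, map_mul, mul_smul_comm]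
    rfl
  · intro g _ hg
    rw [if_neg (Ne.symm hg), zero_smul]
  · intro h0; exact absurd (Finset.mem_univ _) h0

lemma t_Q {R : Type} [Ring R] [Algebra ℂ R] (ψ : GG d →* R) (l : Fin L) (a b : Fin (d l)) :
    ψ (SemidirectProduct.inr (tp d l a b)) * Q (ψ.comp SemidirectProduct.inl) ⟨l, b⟩ =
      Q (ψ.comp SemidirectProduct.inl) ⟨l, a⟩ * ψ (SemidirectProduct.inr (tp d l a b)) := by
  unfold Q
  rw [Finset.mul_sum, Finset.sum_mul]
  refine Fintype.sum_equiv (phi d (tp d l a b)).toEquiv _ _ fun x => ?_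
  rw [mul_smul_comm, smul_mul_assoc]
  have h1 : sg ((phi d (tp d l a b)).toEquiv x) ⟨l, a⟩ = sg x ⟨l, b⟩ := by
    have h2 : (tp d l a b l)⁻¹ a = b := by
      rw [Equiv.Perm.inv_eq_iff_eq, tp_apply]
    change (((phi d (tp d l a b) x ⟨l, a⟩ : ℤˣ) : ℤ) : ℂ) = _
    rw [phi_apply, h2]
    rfl
  rw [h1]
  congr 1
  change ψ _ * ψ _ = ψ _ * ψ _
  rw [← map_mul, ← map_mul]
  congr 1
  have h3 : SemidirectProduct.inl ((phi d (tp d l a b)).toEquiv x) =
      (SemidirectProduct.inr (tp d l a b) * SemidirectProduct.inl x *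
        SemidirectProduct.inr (tp d l a b)⁻¹ : GG d) := SemidirectProduct.inl_aut _ _
  rw [h3]
  simp [mul_assoc, ← map_mul]

end group

/-- CYC -/
theorem t_CYC : S_CYC := by
  intro L d
  refine ⟨GG d, inferInstance, inferInstance, rho d, cf d, ?_, ?_⟩
  · intro l a b
    have h := sum_cf d (rho0 d) l a b
    have h' : ∑ g, cf d l a b g • (rho d g : ∀ l, Matrix (Fin (d l)) (Fin (d l)) ℂ) =
        ∑ g, cf d l a b g • rho0 d g := rfl
    rw [h', h]
    have hQ : ∀ l' : Fin L, Q ((rho0 d).comp SemidirectProduct.inl) ⟨l, b⟩ l' =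
        (Pi.single l (Matrix.single b b 1) : ∀ l, Matrix (Fin (d l)) (Fin (d l)) ℂ) l' := by
      intro l'
      ext i j
      have e1 : Q ((rho0 d).comp SemidirectProduct.inl) ⟨l, b⟩ l' i j =
          ∑ x : Pl d → ℤˣ, (sg x ⟨l, b⟩ / Fintype.card (Pl d → ℤˣ) : ℂ) *
            (if i = j then sg x ⟨l', i⟩ else 0) := by
        unfold Q
        rw [Finset.sum_apply, Matrix.sum_apply]
        refine Finset.sum_congr rfl fun x _ => ?_
        rfl
      rw [e1]
      by_cases hij : i = j
      · subst hij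
        simp only [if_true]
        have e2 : ∑ x : Pl d → ℤˣ, (sg x ⟨l, b⟩ / Fintype.card (Pl d → ℤˣ) : ℂ) * sg x ⟨l', i⟩ =
            (∑ x : Pl d → ℤˣ, sg x ⟨l, b⟩ * sg x ⟨l', i⟩) / Fintype.card (Pl d → ℤˣ) := by
          rw [Finset.sum_div]
          refine Finset.sum_congr rfl fun x _ => ?_
          ring
        rw [e2, sg_orth]
        by_cases hl : l = l'
        · subst hl
          rw [Pi.single_eq_same]
          by_cases hb : b = i
          · subst hb
            rw [if_pos rfl, div_self card_ne]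
            simp
          · rw [if_neg (by simpa using hb)]
            simp [Matrix.single_apply, hb]
        · rw [if_neg (by
            intro h0
            exact hl (congrArg Sigma.fst h0)), Pi.single_eq_of_ne (Ne.symm hl)]
          simp
      · simp only [if_neg hij, mul_zero, Finset.sum_const_zero]
        by_cases hl : l = l'
        · subst hl
          rw [Pi.single_eq_same]
          have : ¬ (b = i ∧ b = j) := fun h0 => hij (h0.1.symm.trans h0.2)
          simp [Matrix.single_apply, this]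
        · rw [Pi.single_eq_of_ne (Ne.symm hl)]
          simp
    funext l'
    rw [Pi.mul_apply, hQ]
    by_cases hl : l = l'
    · subst hl
      rw [Pi.single_eq_same, Pi.single_eq_same]
      ext i j
      rw [Matrix.mul_apply, Finset.sum_eq_single b]
      · have e3 : rho0 d (SemidirectProduct.inr (tp d l a b)) l i b =
            if i = tp d l a b l b then 1 else 0 := by
          change (if i = tp d l a b l b then sg (1 : Pl d → ℤˣ) ⟨l, i⟩ else 0) = _
          simp [sg]
        rw [e3, tp_apply]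
        by_cases hi : a = i
        · subst hi
          by_cases hj : b = j
          · subst hj; simp
          · simp [Matrix.single_apply, hj]
        · simp [Matrix.single_apply, hi, Ne.symm hi]
      · intro k _ hk
        simp [Matrix.single_apply, Ne.symm hk]
      · intro h0; exact absurd (Finset.mem_univ _) h0
    · rw [Pi.single_eq_of_ne (Ne.symm hl), Pi.single_eq_of_ne (Ne.symm hl), mul_zero]
  · intro n ψ
    set ψ' : GG d →* Matrix (Fin n) (Fin n) ℂ := (unitaryGroup (Fin n) ℂ).subtype.comp ψ with hψ'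
    set T : ∀ l, Fin (d l) → Fin (d l) → Matrix (Fin n) (Fin n) ℂ := fun l a b =>
      ψ' (SemidirectProduct.inr (tp d l a b)) with hT
    set q : Pl d → Matrix (Fin n) (Fin n) ℂ := Q (ψ'.comp SemidirectProduct.inl) with hq
    have hE : ∀ l a b, ∑ g, cf d l a b g • (ψ g : Matrix (Fin n) (Fin n) ℂ) =
        T l a b * q ⟨l, b⟩ := fun l a b => sum_cf d ψ' l a b
    have hTq : ∀ l a b, T l a b * q ⟨l, b⟩ = q ⟨l, a⟩ * T l a b := fun l a b => t_Q d ψ' l a b
    have hTT : ∀ l a b c, T l a b * T l b c = T l a c := by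
      intro l a b c
      simp only [hT]
      rw [← map_mul, ← map_mul, tp_mul]
    have hTs : ∀ l a b, (T l a b)ᴴ = T l b a := by
      intro l a b
      have h1 : (ψ (SemidirectProduct.inr (tp d l a b)))⁻¹ =
          ψ (SemidirectProduct.inr (tp d l b a)) := by
        rw [← map_inv, ← map_inv, tp_inv]
      have h2 := congrArg (fun u : unitaryGroup (Fin n) ℂ => (u : Matrix (Fin n) (Fin n) ℂ)) h1
      exact h2
    have hqs : ∀ i, (q i)ᴴ = q i := by
      intro i
      simp only [hq, Q]
      rw [conjTranspose_sum]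
      refine Fintype.sum_equiv (Equiv.inv _) _ _ fun x => ?_
      rw [conjTranspose_smul, Equiv.inv_apply, sg_inv]
      congr 1
      · rw [star_div₀, sg_conj]
        simp
      · have h1 : (ψ (SemidirectProduct.inl x))⁻¹ = ψ (SemidirectProduct.inl x⁻¹) := by
          rw [← map_inv, ← map_inv]
        have h2 := congrArg (fun u : unitaryGroup (Fin n) ℂ => (u : Matrix (Fin n) (Fin n) ℂ)) h1
        exact h2
    have hqq : ∀ i j, q i * q j = if i = j then q i else 0 := fun i j => Q_mul _ i j
    constructor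
    · intro l a b c
      rw [hE, hE, hE]
      calc T l a b * q ⟨l, b⟩ * (T l b c * q ⟨l, c⟩) =
          T l a b * q ⟨l, b⟩ * (q ⟨l, b⟩ * T l b c) := by rw [hTq l b c]
        _ = T l a b * (q ⟨l, b⟩ * q ⟨l, b⟩) * T l b c := by simp only [mul_assoc]
        _ = T l a b * (q ⟨l, b⟩ * T l b c) := by rw [hqq, if_pos rfl, mul_assoc]
        _ = T l a c * q ⟨l, c⟩ := by rw [← hTq, ← mul_assoc, hTT]
    · intro l a b b' c hb
      rw [hE, hE]
      calc T l a b * q ⟨l, b⟩ * (T l b' c * q ⟨l, c⟩) =
          T l a b * q ⟨l, b⟩ * (q ⟨l, b'⟩ * T l b' c) := by rw [hTq l b' c]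
        _ = T l a b * (q ⟨l, b⟩ * q ⟨l, b'⟩) * T l b' c := by simp only [mul_assoc]
        _ = 0 := by rw [hqq, if_neg (by simpa using hb)]; simp
    · intro l l' a b a' b' hl
      rw [hE, hE]
      calc T l a b * q ⟨l, b⟩ * (T l' a' b' * q ⟨l', b'⟩) =
          T l a b * q ⟨l, b⟩ * (q ⟨l', a'⟩ * T l' a' b') := by rw [hTq l' a' b']
        _ = T l a b * (q ⟨l, b⟩ * q ⟨l', a'⟩) * T l' a' b' := by simp only [mul_assoc]
        _ = 0 := by rw [hqq, if_neg (fun h0 => hl (congrArg Sigma.fst h0))]; simp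
    · intro l a b
      rw [hE, hE, conjTranspose_mul, hqs, hTs, hTq]

end

end Pool.Agent.P8H97.RE
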