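import Pool.Agent.P8H97.RE.Finl

/-!
# Project RE, package TEL: telescoping
-/

set_option autoImplicit false

open scoped Kronecker
open Matrix

namespace Pool.Agent.P8H97.RE

open Pool.Agent.P8H72.RE
open Pool.Agent.W661.RC (hs HasT hs_nonneg' hs_conj hs_neg')

noncomputable section

lemma bd_mul_u {X : Type} [Fintype X] [DecidableEq X] {Z : Matrix X X ℂ} (h : Bd 1 Z)
    (U : unitaryGroup X ℂ) : Bd 1 (Z * U.1) := fun W => by
  constructor
  · have := (h (U.1 * W)).1
    rw [hs_u_mul] at this
    rwa [mul_assoc]
  · have := (h W).2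
    rw [← mul_assoc, hs_mul_u]
    exact this

/-- TEL -/
theorem t_TEL : S_TEL := by
  intro X _ _ n U P w Z ε C c hZ hε hC hc hP hw
  induction w generalizing Z with
  | nil =>
    have h1 : FreeGroup.lift U (FreeGroup.mk []) = 1 := by simp [FreeGroup.lift_mk]
    have h2 : ev P [] = 1 := by simp [ev]
    rw [h1, h2]
    simp
  | cons s w ih =>
    obtain ⟨i, b⟩ := s
    set u : unitaryGroup X ℂ := if b = true then U i else (U i)⁻¹ with hu
    set p : Matrix X X ℂ := if b = true then P i else star (P i) with hp
    have h1 : FreeGroup.lift U (FreeGroup.mk ((i, b) :: w)) = u * FreeGroup.lift U (FreeGroup.mk w) := by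
      rw [FreeGroup.lift_mk, FreeGroup.lift_mk, List.map_cons, List.prod_cons, hu]
      cases b <;> simp
    have h2 : ev P ((i, b) :: w) = p * ev P w := by
      simp only [ev, List.map_cons, List.prod_cons]
      rfl
    have h3 : hs (u.1 - p) ≤ ε * c := by
      rw [← neg_sub, hs_neg', hu, hp]
      cases b
      · have h4 : (star (P i) - ((U i)⁻¹).1 : Matrix X X ℂ) = (P i - (U i).1)ᴴ := by
          rw [conjTranspose_sub]; rfl
        simp only [Bool.false_eq_true, if_false]
        rw [h4, hs_conj]
        exact hP i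
      · simpa using hP i
    have h4 : u.1 * (FreeGroup.lift U (FreeGroup.mk w)).1 - p * ev P w =
        u.1 * ((FreeGroup.lift U (FreeGroup.mk w)).1 - ev P w) + (u.1 - p) * ev P w := by
      rw [mul_sub, sub_mul]; abel
    have h5 : (u * FreeGroup.lift U (FreeGroup.mk w)).1 =
      u.1 * (FreeGroup.lift U (FreeGroup.mk w)).1 := rfl
    rw [h1, h2, h5, h4, mul_add, trace_add, ← mul_assoc, ← mul_assoc]
    have h6 := ih (Z * u.1) (bd_mul_u hZ u) (fun k => by
      have := hw (k + 1)
      rwa [List.drop_succ_cons] at this)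
    have h7 : ‖trace (Z * (u.1 - p) * ev P w)‖ ≤ √(ε * C) * c := by
      refine (cs _ _).trans ?_
      have h8 : hs (Z * (u.1 - p)) ≤ ε * c := by
        have := (hZ (u.1 - p)).1
        rw [one_mul] at this
        exact this.trans h3
      have h9 : hs (ev P w) ≤ C * c := by
        have := hw 1
        rwa [List.drop_one, List.tail_cons] at this
      calc √(hs (Z * (u.1 - p))) * √(hs (ev P w)) ≤ √(ε * c) * √(C * c) :=
            mul_le_mul (Real.sqrt_le_sqrt h8) (Real.sqrt_le_sqrt h9) (Real.sqrt_nonneg _)
              (Real.sqrt_nonneg _)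
        _ = √(ε * C) * c := by
            rw [← Real.sqrt_mul (by positivity), show ε * c * (C * c) = (ε * C) * (c ^ 2) by ring,
              Real.sqrt_mul (by positivity), Real.sqrt_sq hc]
    refine (norm_add_le _ _).trans ?_
    rw [List.length_cons]
    push_cast
    linarith

end

end Pool.Agent.P8H97.RE
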