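import Pool.Agent.P8H72.RE.Stm

/-!
# Project RE, package FINL: the contradiction at the matrix level
-/

set_option autoImplicit false

open scoped Kronecker
open Matrix

namespace Pool.Agent.P8H97.RE

open Pool.Agent.P8H72.RE
open Pool.Agent.W661.RC (hs HasT hs_nonneg' hs_conj hs_neg')

noncomputable section

section basic

variable {X : Type} [Fintype X] [DecidableEq X]

lemma hs_tr (A : Matrix X X ℂ) : hs A = (trace (A * Aᴴ)).re := by
  unfold hs
  simp only [Matrix.trace, Matrix.diag_apply, Matrix.mul_apply, Matrix.conjTranspose_apply,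
    Complex.re_sum]
  refine Finset.sum_congr rfl fun i _ => Finset.sum_congr rfl fun j _ => ?_
  rw [Complex.star_def, Complex.mul_conj, Complex.ofReal_re, Complex.normSq_eq_norm_sq]

lemma hs_sub_eq (A B : Matrix X X ℂ) :
    hs (A - B) = hs A + hs B - 2 * (trace (A * Bᴴ)).re := by
  have h1 : trace (B * Aᴴ) = star (trace (A * Bᴴ)) := by
    rw [← trace_conjTranspose, conjTranspose_mul, conjTranspose_conjTranspose]
  rw [hs_tr (A - B), hs_tr A, hs_tr B, conjTranspose_sub, sub_mul, mul_sub, mul_sub, trace_sub,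
    trace_sub, trace_sub, h1]
  simp only [Complex.sub_re, Complex.star_def, Complex.conj_re]
  ring

lemma cs (A B : Matrix X X ℂ) : ‖trace (A * B)‖ ≤ √(hs A) * √(hs B) := by
  have h1 : trace (A * B) = ∑ p : X × X, A p.1 p.2 * B p.2 p.1 := by
    rw [Fintype.sum_prod_type]
    simp [Matrix.trace, Matrix.mul_apply]
  have h2 : hs A = ∑ p : X × X, ‖A p.1 p.2‖ ^ 2 := by
    rw [Fintype.sum_prod_type]; rfl
  have h3 : hs B = ∑ p : X × X, ‖B p.2 p.1‖ ^ 2 := by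
    rw [Fintype.sum_prod_type, Finset.sum_comm]; rfl
  rw [h1, h2, h3]
  refine (norm_sum_le _ _).trans ?_
  simp only [norm_mul]
  exact Real.sum_mul_le_sqrt_mul_sqrt _ _ _

lemma uu (U : unitaryGroup X ℂ) : U.1 * U.1ᴴ = 1 := by
  have := U.2
  rw [mem_unitaryGroup_iff] at this
  exact this

lemma uu' (U : unitaryGroup X ℂ) : U.1ᴴ * U.1 = 1 := by
  have := U.2
  rw [mem_unitaryGroup_iff'] at this
  exact this

lemma hs_mul_u (U : unitaryGroup X ℂ) (W : Matrix X X ℂ) : hs (W * U.1) = hs W := by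
  rw [hs_tr, hs_tr, conjTranspose_mul, mul_assoc, ← mul_assoc U.1, uu, one_mul]

lemma hs_u_mul (U : unitaryGroup X ℂ) (W : Matrix X X ℂ) : hs (U.1 * W) = hs W := by
  rw [← hs_conj (U.1 * W), ← hs_conj W, conjTranspose_mul]
  have h := hs_mul_u (star U) Wᴴ
  simpa [star_eq_conjTranspose] using h

lemma hs_one : hs (1 : Matrix X X ℂ) = Fintype.card X := by
  rw [hs_tr]
  simp

lemma hs_u (U : unitaryGroup X ℂ) : hs U.1 = Fintype.card X := by
  rw [← hs_one, ← hs_u_mul U 1, mul_one]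

lemma bd_u (U : unitaryGroup X ℂ) : Bd 1 U.1 := fun W => by
  rw [hs_u_mul, hs_mul_u]
  exact ⟨by linarith, by linarith⟩

lemma bd_star {Z : Matrix X X ℂ} (h : Bd 1 Z) : Bd 1 Zᴴ := fun W => by
  have h1 := (h Wᴴ).2
  have h2 := (h Wᴴ).1
  rw [← hs_conj, conjTranspose_mul, conjTranspose_conjTranspose, hs_conj] at h1
  rw [← hs_conj, conjTranspose_mul, conjTranspose_conjTranspose, hs_conj] at h2
  exact ⟨h1, h2⟩

end basic

lemma hs_kron {X Y : Type} [Fintype X] [Fintype Y] (A : Matrix X X ℂ) (B : Matrix Y Y ℂ) :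
    hs (A ⊗ₖ B) = hs A * hs B := by
  unfold hs
  simp only [Fintype.sum_prod_type, kroneckerMap_apply, norm_mul, mul_pow]
  rw [Finset.sum_mul]
  refine Finset.sum_congr rfl fun i _ => ?_
  rw [Finset.mul_sum]
  refine Finset.sum_congr rfl fun a _ => ?_
  rw [Finset.sum_mul_sum]

section mu

variable {N m L : ℕ} {d : Fin L → ℕ}
  {e : ∀ l, Fin (d l) → Fin (d l) → Matrix (Fin N) (Fin N) ℂ}

lemma mu_diag (h : MU e) (l : Fin L) (a b : Fin (d l)) :
    (∑ l, ∑ a, e l a a) * e l a b = e l a b := by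
  classical
  rw [Finset.sum_mul, Finset.sum_eq_single l]
  · rw [Finset.sum_mul, Finset.sum_eq_single a]
    · exact h.mul l a a b
    · intro a' _ ha'
      exact h.zero l a' a' a b ha'
    · intro h0; exact absurd (Finset.mem_univ _) h0
  · intro l' _ hl'
    rw [Finset.sum_mul]
    exact Finset.sum_eq_zero fun a' _ => h.orth l' l a' a' a b hl'
  · intro h0; exact absurd (Finset.mem_univ _) h0

lemma z0_kr (h : MU e) (μ : ∀ l, Fin (d l) → Fin (d l) → Matrix (Fin m) (Fin m) ℂ) :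
    ((1 - ∑ l, ∑ a, e l a a) ⊗ₖ (1 : Matrix (Fin m) (Fin m) ℂ)) * kr e μ = 0 := by
  unfold kr
  rw [Finset.mul_sum]
  refine Finset.sum_eq_zero fun l _ => ?_
  rw [Finset.mul_sum]
  refine Finset.sum_eq_zero fun a _ => ?_
  rw [Finset.mul_sum]
  refine Finset.sum_eq_zero fun b _ => ?_
  rw [← mul_kronecker_mul, sub_mul, one_mul, mu_diag h, sub_self, zero_kronecker]

lemma kr_comm (Y : Matrix (Fin N) (Fin N) ℂ) (hY : ∀ l a b, Y * e l a b = e l a b * Y)
    (μ : ∀ l, Fin (d l) → Fin (d l) → Matrix (Fin m) (Fin m) ℂ) :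
    (Y ⊗ₖ (1 : Matrix (Fin m) (Fin m) ℂ)) * kr e μ =
      kr e μ * (Y ⊗ₖ (1 : Matrix (Fin m) (Fin m) ℂ)) := by
  unfold kr
  rw [Finset.mul_sum, Finset.sum_mul]
  refine Finset.sum_congr rfl fun l _ => ?_
  rw [Finset.mul_sum, Finset.sum_mul]
  refine Finset.sum_congr rfl fun a _ => ?_
  rw [Finset.mul_sum, Finset.sum_mul]
  refine Finset.sum_congr rfl fun b _ => ?_
  rw [← mul_kronecker_mul, ← mul_kronecker_mul, hY, one_mul, mul_one]

/-- `Y ⊗ 1` -/
def ampl (m : ℕ) (Y : unitaryGroup (Fin N) ℂ) : unitaryGroup (Fin N × Fin m) ℂ :=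
  ⟨Y.1 ⊗ₖ (1 : Matrix (Fin m) (Fin m) ℂ), by
    rw [mem_unitaryGroup_iff, star_eq_conjTranspose, conjTranspose_kronecker, ← mul_kronecker_mul,
      uu, conjTranspose_one, one_mul, one_kronecker_one]⟩

end mu

/-- the numerical choice of `ε` -/
lemma choose_eps (δ Λ C : ℝ) (hδ : 0 < δ) (hΛ : 0 ≤ Λ) (hC : 0 ≤ C) :
    ∃ ε : ℝ, 0 < ε ∧ 4 * (Λ * √(ε * C) + √ε) ≤ δ ∧ Λ * √(ε * C) + √ε + √(ε * C) < 3 / 4 := by
  set D := (Λ + 1) * (√C + 1) with hD
  have hsC : 0 ≤ √C := Real.sqrt_nonneg _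
  have hD1 : 1 ≤ D := by rw [hD]; nlinarith
  set t := min δ 1 / (8 * D) with ht
  have ht0 : 0 < t := by positivity
  have htD : t * D ≤ min δ 1 / 8 := by
    rw [ht, div_mul_eq_mul_div, div_le_div_iff₀ (by positivity) (by norm_num)]
    nlinarith
  have h1 : √(t ^ 2) = t := Real.sqrt_sq ht0.le
  have h2 : √(t ^ 2 * C) = t * √C := by rw [Real.sqrt_mul (by positivity), h1]
  have hm1 : min δ 1 ≤ δ := min_le_left _ _
  have hm2 : min δ 1 ≤ 1 := min_le_right _ _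
  have hx : Λ * √C * t + t ≤ t * D := by rw [hD]; nlinarith [mul_nonneg hΛ ht0.le, mul_nonneg hsC ht0.le, mul_nonneg (mul_nonneg hΛ hsC) ht0.le]
  have hy : Λ * √C * t + t + √C * t ≤ t * D := by rw [hD]; nlinarith [mul_nonneg hΛ ht0.le, mul_nonneg hsC ht0.le, mul_nonneg (mul_nonneg hΛ hsC) ht0.le]
  refine ⟨t ^ 2, by positivity, ?_, ?_⟩
  · rw [h1, h2]
    nlinarith
  · rw [h1, h2]
    nlinarith

/-- FINL -/
theorem t_FINL (hF : S_FMX) (hD : S_DIX) (hP : S_POL) (hT : S_TEL) : S_FINL := by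
  intro G _ K hG hK hcl n γ hγ g hg x hx
  obtain ⟨δ, R, S, hδ, hR, hS, H⟩ := hF G K hG hK hcl n γ hγ g hg x hx (1 / 2) (by norm_num)
  refine ⟨R, S, hR, hS, fun C => ?_⟩
  classical
  obtain ⟨Λ, hΛ⟩ : ∃ Λ : ℕ, ∀ w, (w ∈ R ∨ w ∈ S ∨ w = x) → w.toWord.length ≤ Λ := by
    refine ⟨(insert x (R ∪ S)).sup fun w => w.toWord.length, fun w hw => ?_⟩
    refine Finset.le_sup (f := fun w : FreeGroup (Fin n) => w.toWord.length) ?_
    rcases hw with h | h | h
    · exact Finset.mem_insert_of_mem (Finset.mem_union_left _ h)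
    · exact Finset.mem_insert_of_mem (Finset.mem_union_right _ h)
    · rw [h]; exact Finset.mem_insert_self _ _
  set C₁ := max C 0 with hC₁
  have hC0 : 0 ≤ C₁ := le_max_right _ _
  obtain ⟨ε, hε, hε1, hε2⟩ := choose_eps δ Λ C₁ hδ (Nat.cast_nonneg _) hC0
  refine ⟨ε, hε, ?_⟩
  rintro ⟨N, m, P, L, d, e, hN, hm, hMU, hCb, hPu, hRb, hSb, hxb, hzb⟩
  set c : ℝ := (N : ℝ) * m with hc
  have hN' : (0 : ℝ) < N := by exact_mod_cast hN
  have hm' : (0 : ℝ) < m := by exact_mod_cast hm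
  have hc0 : 0 < c := by positivity
  have hcard : (Fintype.card (Fin N × Fin m) : ℝ) = c := by
    rw [Fintype.card_prod, Fintype.card_fin, Fintype.card_fin]; push_cast; rfl
  haveI : Nonempty (Fin N × Fin m) := ⟨⟨⟨0, hN⟩, ⟨0, hm⟩⟩⟩
  choose U hU using fun i => hP (Fin N × Fin m) (P i)
  set η : ℝ := Λ * √(ε * C₁) with hη
  have hsq : 0 ≤ √(ε * C₁) := Real.sqrt_nonneg _
  have hη0 : 0 ≤ η := by positivity
  -- telescoping
  have tel : ∀ w, (w ∈ R ∨ w ∈ S ∨ w = x) → ∀ Z : Matrix (Fin N × Fin m) (Fin N × Fin m) ℂ,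
      Bd 1 Z → ‖trace (Z * (FreeGroup.lift U w).1) - trace (Z * ev P w.toWord)‖ ≤ η * c := by
    intro w hw Z hZ
    have h := hT (Fin N × Fin m) n U P w.toWord Z ε C₁ c hZ hε.le hC0 hc0.le
      (fun i => (hU i).trans (hPu i)) (fun k => (hCb w hw k).trans
        (mul_le_mul_of_nonneg_right (le_max_left _ _) hc0.le))
    rw [FreeGroup.mk_toWord, mul_sub, trace_sub] at h
    refine h.trans ?_
    have h2 : (w.toWord.length : ℝ) ≤ Λ := by exact_mod_cast hΛ w hw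
    rw [hη]
    exact mul_le_mul_of_nonneg_right (mul_le_mul_of_nonneg_right h2 hsq) hc0.le
  have hone : hs (1 : Matrix (Fin N × Fin m) (Fin N × Fin m) ℂ) = c := by rw [hs_one, hcard]
  have hsu : ∀ V : unitaryGroup (Fin N × Fin m) ℂ, hs V.1 = c := fun V => by rw [hs_u, hcard]
  have hse : √(ε * c) * √c = √ε * c := by
    rw [Real.sqrt_mul hε.le, mul_assoc, Real.mul_self_sqrt hc0.le]
  -- the relations
  have stepR : ∀ w ∈ R, hs ((FreeGroup.lift U w).1 - 1) ≤ δ * Fintype.card (Fin N × Fin m) := by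
    intro w hw
    have h1 := tel w (Or.inl hw) 1 (by simpa using bd_u (1 : unitaryGroup (Fin N × Fin m) ℂ))
    rw [one_mul, one_mul] at h1
    have h2 : ‖trace (ev P w.toWord) - c‖ ≤ √ε * c := by
      have h3 := cs (ev P w.toWord - 1) (1 : Matrix (Fin N × Fin m) (Fin N × Fin m) ℂ)
      rw [mul_one, trace_sub, trace_one, hone] at h3
      have h4 : √(hs (ev P w.toWord - 1)) ≤ √(ε * c) := Real.sqrt_le_sqrt (hRb w hw)
      have h5 : ((Fintype.card (Fin N × Fin m) : ℕ) : ℂ) = ((c : ℝ) : ℂ) := by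
        rw [← hcard]; simp
      rw [h5] at h3
      refine h3.trans ?_
      rw [← hse]
      exact mul_le_mul_of_nonneg_right h4 (Real.sqrt_nonneg _)
    have h6 : ‖trace (FreeGroup.lift U w).1 - c‖ ≤ (η + √ε) * c := by
      have := norm_add_le (trace (FreeGroup.lift U w).1 - trace (ev P w.toWord))
        (trace (ev P w.toWord) - c)
      rw [sub_add_sub_cancel] at this
      linarith
    have h7 : c - (trace (FreeGroup.lift U w).1).re ≤ (η + √ε) * c := by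
      have := Complex.abs_re_le_norm (trace (FreeGroup.lift U w).1 - c)
      rw [Complex.sub_re, Complex.ofReal_re] at this
      have := (abs_le.mp (this.trans h6)).1
      linarith
    rw [hs_sub_eq, hsu, hone, conjTranspose_one, mul_one, hcard]
    nlinarith [Real.sqrt_nonneg ε]
  -- the commutation relations
  have stepS : ∀ Y : unitaryGroup (Fin N) ℂ,
      (∀ l a b, (Y : Matrix (Fin N) (Fin N) ℂ) * e l a b = e l a b * Y) →
      ∀ w ∈ S, hs ((FreeGroup.lift U w).1 * (ampl m Y).1 - (ampl m Y).1 * (FreeGroup.lift U w).1) ≤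
        δ * Fintype.card (Fin N × Fin m) := by
    intro Y hY w hw
    obtain ⟨κ, hκ⟩ := hSb w hw
    set V := ampl m Y with hV
    set W := FreeGroup.lift U w with hW
    have hVκ : V.1 * kr e κ = kr e κ * V.1 := kr_comm Y.1 hY κ
    have hVκ' : V.1ᴴ * kr e κ = kr e κ * V.1ᴴ := by
      calc V.1ᴴ * kr e κ = V.1ᴴ * (kr e κ * (V.1 * V.1ᴴ)) := by rw [uu, mul_one]
        _ = V.1ᴴ * (kr e κ * V.1) * V.1ᴴ := by simp only [mul_assoc]
        _ = V.1ᴴ * (V.1 * kr e κ) * V.1ᴴ := by rw [hVκ]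
        _ = (V.1ᴴ * V.1) * kr e κ * V.1ᴴ := by simp only [mul_assoc]
        _ = kr e κ * V.1ᴴ := by rw [uu', one_mul]
    have hκ' : √(hs (ev P w.toWord - kr e κ)) ≤ √(ε * c) := Real.sqrt_le_sqrt hκ
    -- first replacement
    have ha := tel w (Or.inr (Or.inl hw)) (V * star W * star V).1 (bd_u _)
    have hZ : (V * star W * star V).1 = V.1 * W.1ᴴ * V.1ᴴ := by
      simp [star_eq_conjTranspose]
    rw [hZ] at ha
    have hb : ‖trace (V.1 * W.1ᴴ * V.1ᴴ * ev P w.toWord) -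
        trace (V.1 * W.1ᴴ * V.1ᴴ * kr e κ)‖ ≤ √ε * c := by
      have h3 := cs (V.1 * W.1ᴴ * V.1ᴴ) (ev P w.toWord - kr e κ)
      rw [mul_sub, trace_sub, ← hZ, hsu] at h3
      rw [← hZ]
      refine h3.trans ?_
      rw [← hse, mul_comm]
      exact mul_le_mul_of_nonneg_right hκ' (Real.sqrt_nonneg _)
    have hc1 : trace (V.1 * W.1ᴴ * V.1ᴴ * kr e κ) = trace (W.1ᴴ * kr e κ) := by
      rw [mul_assoc _ V.1ᴴ, hVκ', ← mul_assoc, trace_mul_comm, ← mul_assoc, ← mul_assoc, uu',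
        one_mul]
    have hd1 : ‖trace (W.1ᴴ * ev P w.toWord) - trace (W.1ᴴ * kr e κ)‖ ≤ √ε * c := by
      have h3 := cs (W.1ᴴ) (ev P w.toWord - kr e κ)
      rw [mul_sub, trace_sub, hs_conj, hsu] at h3
      refine h3.trans ?_
      rw [← hse, mul_comm]
      exact mul_le_mul_of_nonneg_right hκ' (Real.sqrt_nonneg _)
    have he1 := tel w (Or.inr (Or.inl hw)) W.1ᴴ (bd_star (bd_u W))
    have hf1 : trace (W.1ᴴ * W.1) = (c : ℂ) := by
      rw [uu', trace_one, ← hcard]; simp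
    rw [← hW, hf1] at he1
    rw [← hW] at ha
    have htot : ‖trace (V.1 * W.1ᴴ * V.1ᴴ * W.1) - c‖ ≤ 2 * (η + √ε) * c := by
      have e1 : trace (V.1 * W.1ᴴ * V.1ᴴ * W.1) - (c : ℂ) =
          (trace (V.1 * W.1ᴴ * V.1ᴴ * W.1) - trace (V.1 * W.1ᴴ * V.1ᴴ * ev P w.toWord)) +
          (trace (V.1 * W.1ᴴ * V.1ᴴ * ev P w.toWord) - trace (V.1 * W.1ᴴ * V.1ᴴ * kr e κ)) -
          (trace (W.1ᴴ * ev P w.toWord) - trace (W.1ᴴ * kr e κ)) -
          (c - trace (W.1ᴴ * ev P w.toWord)) := by rw [hc1]; ring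
      rw [e1]
      have n1 := norm_sub_le ((trace (V.1 * W.1ᴴ * V.1ᴴ * W.1) -
          trace (V.1 * W.1ᴴ * V.1ᴴ * ev P w.toWord)) +
          (trace (V.1 * W.1ᴴ * V.1ᴴ * ev P w.toWord) - trace (V.1 * W.1ᴴ * V.1ᴴ * kr e κ)) -
          (trace (W.1ᴴ * ev P w.toWord) - trace (W.1ᴴ * kr e κ)))
          ((c : ℂ) - trace (W.1ᴴ * ev P w.toWord))
      have n2 := norm_sub_le ((trace (V.1 * W.1ᴴ * V.1ᴴ * W.1) -
          trace (V.1 * W.1ᴴ * V.1ᴴ * ev P w.toWord)) +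
          (trace (V.1 * W.1ᴴ * V.1ᴴ * ev P w.toWord) - trace (V.1 * W.1ᴴ * V.1ᴴ * kr e κ)))
          (trace (W.1ᴴ * ev P w.toWord) - trace (W.1ᴴ * kr e κ))
      have n3 := norm_add_le (trace (V.1 * W.1ᴴ * V.1ᴴ * W.1) -
          trace (V.1 * W.1ᴴ * V.1ᴴ * ev P w.toWord))
          (trace (V.1 * W.1ᴴ * V.1ᴴ * ev P w.toWord) - trace (V.1 * W.1ᴴ * V.1ᴴ * kr e κ))
      linarith
    have hre : c - (trace (V.1 * W.1ᴴ * V.1ᴴ * W.1)).re ≤ 2 * (η + √ε) * c := by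
      have := Complex.abs_re_le_norm (trace (V.1 * W.1ᴴ * V.1ᴴ * W.1) - c)
      rw [Complex.sub_re, Complex.ofReal_re] at this
      have := (abs_le.mp (this.trans htot)).1
      linarith
    have hfin : trace ((W.1 * V.1) * (V.1 * W.1)ᴴ) = trace (V.1 * W.1ᴴ * V.1ᴴ * W.1) := by
      rw [conjTranspose_mul, mul_assoc, trace_mul_comm]
      simp only [mul_assoc]
    rw [hs_sub_eq, hfin, hs_mul_u, hs_mul_u, hsu, hsu, hcard]
    nlinarith [Real.sqrt_nonneg ε]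
  -- averaging
  have key : ∀ Y : unitaryGroup (Fin N) ℂ,
      (∀ l a b, (Y : Matrix (Fin N) (Fin N) ℂ) * e l a b = e l a b * Y) →
      3 / 4 * c ≤ (trace ((((Y : Matrix (Fin N) (Fin N) ℂ) ⊗ₖ (1 : Matrix (Fin m) (Fin m) ℂ)) *
          (FreeGroup.lift U x : Matrix (Fin N × Fin m) (Fin N × Fin m) ℂ)) *
          ((Y : Matrix (Fin N) (Fin N) ℂ) ⊗ₖ (1 : Matrix (Fin m) (Fin m) ℂ))ᴴ *
          (FreeGroup.lift U x : Matrix (Fin N × Fin m) (Fin N × Fin m) ℂ)ᴴ)).re := by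
    intro Y hY
    have h := H (Fin N × Fin m) U (ampl m Y) stepR (stepS Y hY)
    rw [← neg_sub, hs_neg', hs_sub_eq, hs_mul_u, hs_mul_u, hsu, hsu, hcard,
      conjTranspose_mul] at h
    have e1 : ((Y : Matrix (Fin N) (Fin N) ℂ) ⊗ₖ (1 : Matrix (Fin m) (Fin m) ℂ)) =
      (ampl m Y).1 := rfl
    rw [e1]
    simp only [mul_assoc] at h ⊢
    linarith
  obtain ⟨Z₀, μ, hz1, hz2, hz3, hz4⟩ := hD N m L d e hMU (FreeGroup.lift U x) (3 / 4 * c) key
  have hkr : hs (kr e μ) ≤ c := by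
    have := hs_nonneg' Z₀
    linarith
  have hZ0 : hs Z₀ ≤ ε * c := by
    have h1 : ((1 - ∑ l, ∑ a, e l a a) ⊗ₖ (1 : Matrix (Fin m) (Fin m) ℂ)) * (Z₀ + kr e μ) = Z₀ := by
      rw [mul_add, z0_kr hMU, add_zero, ← hz1]
    have h2 := (hz3 ((1 - ∑ l, ∑ a, e l a a) ⊗ₖ (1 : Matrix (Fin m) (Fin m) ℂ))).2
    rw [h1, hs_kron, hs_one, Fintype.card_fin, one_mul] at h2
    refine h2.trans ?_
    calc hs (1 - ∑ l, ∑ a, e l a a) * (m : ℝ) ≤ (ε * N) * m :=
          mul_le_mul_of_nonneg_right hzb hm'.le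
      _ = ε * c := by rw [hc]; ring
  -- the contradiction
  have hxx : x ∈ R ∨ x ∈ S ∨ x = x := Or.inr (Or.inr rfl)
  have t1 := tel x hxx _ (bd_star hz3)
  set Z := Z₀ + kr e μ with hZdef
  have t2 : trace (Z * (FreeGroup.lift U x).1ᴴ) = star (trace (Zᴴ * (FreeGroup.lift U x).1)) := by
    rw [← trace_conjTranspose, conjTranspose_mul, conjTranspose_conjTranspose, trace_mul_comm]
  have t3 : trace (Zᴴ * ev P x.toWord) = trace (Z₀ᴴ * ev P x.toWord) +
      trace ((kr e μ)ᴴ * ev P x.toWord) := by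
    rw [hZdef, conjTranspose_add, add_mul, trace_add]
  have t4 : ‖trace (Z₀ᴴ * ev P x.toWord)‖ ≤ √(ε * C₁) * c := by
    refine (cs _ _).trans ?_
    have h0 := hCb x hxx 0
    rw [List.drop_zero] at h0
    have h1 : hs (ev P x.toWord) ≤ C₁ * c :=
      h0.trans (mul_le_mul_of_nonneg_right (le_max_left _ _) hc0.le)
    rw [hs_conj]
    calc √(hs Z₀) * √(hs (ev P x.toWord)) ≤ √(ε * c) * √(C₁ * c) :=
          mul_le_mul (Real.sqrt_le_sqrt hZ0) (Real.sqrt_le_sqrt h1) (Real.sqrt_nonneg _)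
            (Real.sqrt_nonneg _)
      _ = √(ε * C₁) * c := by
          rw [← Real.sqrt_mul (by positivity), show ε * c * (C₁ * c) = (ε * C₁) * (c ^ 2) by ring,
            Real.sqrt_mul (by positivity), Real.sqrt_sq hc0.le]
  have t5 : ‖trace ((kr e μ)ᴴ * ev P x.toWord)‖ ≤ √ε * c := by
    have h1 := hxb μ
    have h2 : ‖trace ((kr e μ)ᴴ * ev P x.toWord)‖ ^ 2 ≤ (√ε * c) ^ 2 := by
      have h3 : ε * hs (kr e μ) * c ≤ ε * c * c :=
        mul_le_mul_of_nonneg_right (mul_le_mul_of_nonneg_left hkr hε.le) hc0.le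
      have h4 : (√ε * c) ^ 2 = ε * c * c := by
        rw [mul_pow, Real.sq_sqrt hε.le]; ring
      rw [h4]
      exact h1.trans h3
    exact (pow_le_pow_iff_left₀ (norm_nonneg _) (by positivity) two_ne_zero).mp h2
  have t6 : ‖trace (Zᴴ * (FreeGroup.lift U x).1)‖ ≤ (η + √ε + √(ε * C₁)) * c := by
    have h1 : trace (Zᴴ * (FreeGroup.lift U x).1) =
        (trace (Zᴴ * (FreeGroup.lift U x).1) - trace (Zᴴ * ev P x.toWord)) +
        (trace (Z₀ᴴ * ev P x.toWord) + trace ((kr e μ)ᴴ * ev P x.toWord)) := by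
      rw [← t3]; ring
    have n1 := norm_add_le (trace (Zᴴ * (FreeGroup.lift U x).1) - trace (Zᴴ * ev P x.toWord))
      (trace (Z₀ᴴ * ev P x.toWord) + trace ((kr e μ)ᴴ * ev P x.toWord))
    have n2 := norm_add_le (trace (Z₀ᴴ * ev P x.toWord)) (trace ((kr e μ)ᴴ * ev P x.toWord))
    rw [← h1] at n1
    linarith
  have t7 : 3 / 4 * c ≤ (η + √ε + √(ε * C₁)) * c := by
    refine (hz4.trans ?_).trans t6
    have h1 : (trace (Z * (FreeGroup.lift U x).1ᴴ)).re ≤ ‖trace (Z * (FreeGroup.lift U x).1ᴴ)‖ :=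
      Complex.re_le_norm _
    rw [t2, norm_star] at h1
    rw [t2]
    exact h1
  have t8 := lt_of_mul_lt_mul_right (lt_of_le_of_lt t7
    (mul_lt_mul_of_pos_right hε2 hc0)) hc0.le
  exact lt_irrefl _ t8

end

end Pool.Agent.P8H97.RE
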